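import Mathlib
import Pool.Agent.H.MP_40e425_nt.B
import Pool.Agent.H.MP_40e425_nt.D

open Finset Polynomial

namespace Pool.Agent.Results.MP_40e425_nt.Yes

noncomputable def q : RatFunc ℚ := RatFunc.X

noncomputable def qi (N : ℕ) : RatFunc ℚ := (1 - q ^ N) / (1 - q)

noncomputable def a (k : ℕ) : RatFunc ℚ :=
  ∏ j ∈ Icc 1 k, (1 - q ^ (2 * j - 1)) ^ 4 * (1 - q ^ (4 * j - 2)) /
    ((1 - q ^ (2 * j)) ^ 4 * (1 - q ^ (4 * j)))

def c (k : ℕ) : ℚ := (1 / 4 ^ k * ((2 * k).choose k : ℚ)) ^ 5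

noncomputable def S (m n : ℕ) : RatFunc ℚ :=
  ∑ k ∈ range (m * n), (-1) ^ k * qi (4 * k + 1) * a k * q ^ k

noncomputable def lam (n : ℕ) : RatFunc ℚ :=
  qi n * ∏ j ∈ Icc 1 ((n - 1) / 4), ((1 - q ^ (4 * j - 2)) / (1 - q ^ (4 * j))) ^ 2

noncomputable def T (m n : ℕ) : RatFunc ℚ :=
  lam n * RatFunc.C (∑ k ∈ range m, (-1) ^ k * (4 * k + 1) * c k)

open Pool.Agent.H.MP_4d1f21_nt Pool.Agent.H.MP_c9c571_nt Pool.Agent.H.MP_40e425_nt
  Pool.Agent.H.MP_74870a_nt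

theorem pI (f : ℕ → RatFunc ℚ) (k : ℕ) : ∏ j ∈ Icc 1 k, f j = ∏ j ∈ range k, f (1 + j) := by
  induction k with
  | zero => simp
  | succ k ih => rw [prod_Icc_succ_top (by omega), ih, prod_range_succ, add_comm 1 k]

theorem a_eq (k : ℕ) : a k = hh q k ^ 4 * hh (q ^ 2) k := by
  rw [a, hh, hh, ← prod_div_distrib, ← prod_div_distrib, ← prod_pow, ← prod_mul_distrib, pI]
  refine prod_congr rfl fun j _ => ?_
  rw [div_pow, div_mul_div_comm, show 2 * (1 + j) - 1 = 2 * j + 1 by omega,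
    show 4 * (1 + j) - 2 = 4 * j + 2 by omega]
  congr 3 <;> ring

theorem lam_eq (v : ℕ) :
    lam (4 * v + 1) = (1 - q)⁻¹ * ∑ k ∈ range (2 * v + 1), F3 q (q ^ (4 * v + 1)) k := by
  have hq : q ≠ 0 := RatFunc.X_ne_zero
  have h : ∀ j, 0 < j → 1 - q ^ j ≠ 0 := fun j hj => qne hj
  have h1 := F3_sum hq h v (2 * v + 1) (by omega)
  have h5 : ∏ j ∈ range v, (1 - q ^ (4 * j + 4)) ≠ 0 := prod_ne_zero_iff.2 fun j _ => h _ (by omega)
  have h3 : 1 - q ≠ 0 := by simpa using h 1 one_pos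
  rw [lam, qi, show (4 * v + 1 - 1) / 4 = v by omega, pI,
    prod_pow, prod_div_distrib]
  simp only [show ∀ j, 4 * (1 + j) - 2 = 4 * j + 2 from fun j => by omega]
  simp only [show ∀ j, 4 * (1 + j) = 4 * j + 4 from fun j => by omega]
  field_simp
  linear_combination -h1

theorem fac {A : Type*} [CommRing A] {e z i : A} (he : e ^ 3 = 0) (hi : (1 - z) * i = 1) :
    (1 + e - z) * (1 - (1 + e) * z) = (1 + e) * (1 - z) ^ 2 * (1 - e ^ 2 * (z * i ^ 2)) := by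
  linear_combination z * he + (1 + e) * e ^ 2 * z * ((1 - z) * i + 1) * hi

theorem result (m n : ℕ) (_hm : 1 ≤ m) (h1 : 1 ≤ n) (hn : n % 4 = 1) :
    cyclotomic n ℚ ^ 3 ∣ (S m n - T m n).num ∧
      IsCoprime (S m n - T m n).denom (cyclotomic n ℚ ^ 3) := by
  obtain ⟨v, hv⟩ : ∃ v, n = 2 * (2 * v) + 1 := ⟨n / 4, by omega⟩
  have := nontriv (n := n) (e := 3) (by omega) (by omega)
  set P := cyclotomic n ℚ ^ 3
  set x := AdjoinRoot.root P with hx
  set φ := algebraMap ℚ (AdjoinRoot P)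
  have he : (x ^ n - 1) ^ 3 = 0 := eps_pow n 3
  have hu : ∀ j, ¬ n ∣ j → IsUnit (1 - x ^ j) := fun j hj => unit_root 3 (by omega) hj
  have hcop : Nat.Coprime n 2 := Nat.coprime_two_right.2 (Nat.odd_iff.2 (by omega))
  have hu2 : ∀ j, ¬ n ∣ j → IsUnit (1 - (x ^ 2) ^ j) := fun j hj => by
    rw [← pow_mul]; exact hu _ fun h => hj (hcop.dvd_of_dvd_mul_left h)
  have e2 : (x ^ 2) ^ n - 1 = (1 + (x ^ n - 1)) ^ 2 - 1 := by ring
  have he2 : ((x ^ 2) ^ n - 1) ^ 3 = 0 := by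
    linear_combination (x ^ n + 1) ^ 3 * he
  have hf : φ (1 / 2) * 2 = 1 := by
    rw [show (2 : AdjoinRoot P) = φ 2 from (map_ofNat _ 2).symm, ← map_mul]; norm_num
  have rq : Rel P q x := Rel.X
  have hK1 : ∀ j, 0 < j → 1 - q ^ j ≠ 0 := fun j hj => qne hj
  have hK : ∀ j, 0 < j → 1 - (q ^ 2) ^ j ≠ 0 := fun j hj => by
    rw [← pow_mul]; exact qne (by omega)
  have hc : ∀ r : ℕ, φ ((-1) ^ r * (4 * r + 1) * c r) = (-1) ^ r * (4 * r + 1) * φ (gam r) ^ 5 :=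
    fun r => by rw [c, gam_c]; simp [map_ofNat]
  have hxn : ∀ r : ℕ, x ^ (n * r) = (1 + (x ^ n - 1)) ^ r := fun r => by rw [pow_mul]; congr 1; ring
  have rm : ∀ k : ℕ, Rel P ((-1) ^ k) ((-1) ^ k) := fun k => Rel.one.neg.pow k
  have lo : ∀ r k, k ≤ 2 * v → Rel P (a (n * r + k) * q ^ (n * r + k))
      (x ^ k * (U x (iv x) n (n * (2 * r) + 2 * k) ^ 4 * U (x ^ 2) (iv (x ^ 2)) n (n * (2 * r) + 2 * k))
        * φ (gam r) ^ 5 * tr (x ^ n - 1) 1 (-2 * r) ((4 * r ^ 2 + 2 * r) / 3)) := fun r k hk => by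
    rw [a_eq]
    convert (((rel_lo3 rq hK1 hv he hu r k hk).pow 4).mul
      (rel_lo3 (rq.pow 2) hK hv he2 hu2 r k hk)).mul (rq.pow _) using 1
    rw [← rt_all he, e2, pow_add, hxn]; ring
  apply Rel.fin
  rw [S, T, sum_blocks]
  rcases Nat.eq_zero_or_pos v with h0 | h0
  · have hn1 : n = 1 := by omega
    have h3 : 1 - q ≠ 0 := by simpa using hK1 1 one_pos
    have hl : lam n = 1 := by rw [hn1, lam, qi]; simp [h3]
    have hU : ∀ (z : AdjoinRoot P) T, U z (iv z) n T = 1 := fun z T => by simp [U, u, hn1]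
    rw [hl, one_mul, ← sub_self (φ (∑ k ∈ range m, (-1) ^ k * (4 * k + 1) * c k))]
    refine Rel.sub ?_ (Rel.rat _)
    rw [map_sum]
    refine Rel.sum _ fun r _ => ?_
    have h4 := lo r 0 (by omega)
    have h5 : qi (4 * r + 1) = ∑ i ∈ range (4 * r + 1), q ^ i := by
      rw [qi, ← geom_sum_mul_neg, mul_div_cancel_right₀ _ h3]
    have h6 := Rel.sum (range (4 * r + 1)) fun i _ => rq.pow i
    have h7 : ∑ i ∈ range (4 * r + 1), x ^ i = ∑ i ∈ range (4 * r + 1), (1 + (x ^ n - 1)) ^ i := by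
      rw [hn1]; simp
    rw [h7, tr_geo he, ← h5] at h6
    rw [hU, hU] at h4
    rw [show range n = range 1 by rw [hn1], sum_range_one, mul_assoc]
    rw [show n * r + 0 = r by rw [hn1]; simp] at h4 ⊢
    convert ((rm r).mul h6).mul h4 using 1
    have h8 := tr_mul he ((4 * r + 1 : ℕ) : ℚ) (((4 * r + 1 : ℕ) : ℚ) * ((4 * r + 1 : ℕ) - 1) / 2)
      (((4 * r + 1 : ℕ) : ℚ) * ((4 * r + 1 : ℕ) - 1) * ((4 * r + 1 : ℕ) - 2) / 6) 1 (-2 * r)
      ((4 * r ^ 2 + 2 * r) / 3)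
    rw [tr_congr (a' := (4 * r + 1 : ℕ)) (b' := 0) (c' := 0) _ (mul_one _) (by push_cast; ring)
      (by push_cast; ring), ← tr_c, map_natCast] at h8
    rw [hc]
    push_cast at h8 ⊢
    linear_combination (-((-1) ^ r * φ (gam r) ^ 5)) * h8
  have hw : (1 - x) * iv x 1 = 1 := by
    simpa [iv] using Ring.mul_inverse_cancel _ (hu 1 (nd0 (by omega) (by omega)))
  have rw1 := (Rel.one.sub rq).inv hw
  have rqi : ∀ N, Rel P (qi N) ((1 - x ^ N) * iv x 1) := fun N => by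
    rw [qi, div_eq_mul_inv]; exact (Rel.one.sub (rq.pow N)).mul rw1
  have hxu : IsUnit x := IsUnit.of_mul_eq_one (x ^ (4 * v) * (3 - 3 * x ^ n + (x ^ n) ^ 2)) (by
    rw [← mul_assoc, ← pow_succ', show 4 * v + 1 = n by omega]; linear_combination he)
  obtain ⟨b1, b2⟩ := block hxu.unit (x := x) rfl hv hf he hu hu2
  have blk : ∀ r, Rel P (∑ k ∈ range n, (-1) ^ (n * r + k) * qi (4 * (n * r + k) + 1) * a (n * r + k)
      * q ^ (n * r + k)) (φ ((-1) ^ r * (4 * r + 1) * c r) *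
        (iv x 1 * ∑ k ∈ range (2 * v + 1), tm x n 0 k)) := by
    intro r
    have hG := b2 r (tr (x ^ n - 1) 1 (-2 * r) ((4 * r ^ 2 + 2 * r) / 3))
      (φ ((-(2 * r ^ 2) - r) / 3)) (by
        rw [hxn, tr_pow he, tr_mul he, tr_congr (a' := 1) (b' := 0) (c' := (-(2 * r ^ 2) - r) / 3) _
          (mul_one _) (by push_cast; ring) (by push_cast; ring)]
        simp [tr, mul_comm]; rfl)
    have l1 := Rel.sum (range (2 * v + 1)) fun k hk => ((rm (n * r + k)).mul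
      (rqi (4 * (n * r + k) + 1))).mul (lo r k (by have := mem_range.1 hk; omega))
    have hi : Rel P (∑ k ∈ range (2 * v), (-1) ^ (n * r + (2 * v + 1 + k)) *
        qi (4 * (n * r + (2 * v + 1 + k)) + 1) * a (n * r + (2 * v + 1 + k))
        * q ^ (n * r + (2 * v + 1 + k))) (∑ k ∈ range (2 * v), 0) := by
      refine Rel.sum _ fun k hk => ?_
      have hk' := mem_range.1 hk
      obtain ⟨z, hz⟩ := rel_hi3 rq hK1 hv he hu r (2 * v + 1 + k) (by omega) (by omega)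
      obtain ⟨z2, hz2⟩ := rel_hi3 (rq.pow 2) hK hv he2 hu2 r (2 * v + 1 + k) (by omega) (by omega)
      rw [a_eq]
      convert (((rm _).mul (rqi _)).mul ((hz.pow 4).mul hz2)).mul (rq.pow _) using 1
      rw [mul_pow, pow_succ _ 3, he]; ring
    conv => arg 2; rw [show range n = range (2 * v + 1 + 2 * v) by congr 1; omega, sum_range_add]
    simp only [← mul_assoc _ (a _)] at l1
    convert l1.add hi using 1
    have hs : ((-1 : AdjoinRoot P)) ^ (n * r) = (-1) ^ r := by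
      rw [pow_mul, Odd.neg_one_pow (Nat.odd_iff.2 (by omega))]
    rw [sum_const_zero, add_zero, hc, show ∀ A B C : AdjoinRoot P, (-1) ^ r * (4 * r + 1) * A * (B * C)
      = (-1) ^ r * A * B * ((4 * r + 1) * C) from fun A B C => by ring, ← hG, mul_sum, mul_sum]
    refine sum_congr rfl fun k _ => ?_
    rw [tm, pow_add (-1 : AdjoinRoot P), hs, neg_pow x]; ring
  have hb : ∑ k ∈ range (2 * v + 1), (x ^ n - 1) ^ 2 * (tm x n 0 k * th x k) = 0 :=
    anti _ _ fun k d hkd => by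
      obtain ⟨c1, h1⟩ := b1 k d hkd
      obtain ⟨c2, h2⟩ := th_refl hv hu k d hkd
      linear_combination (x ^ n - 1) ^ 2 * (th x d * h1 + tm x n 0 k * h2)
        + (c1 * th x d + tm x n 0 k * c2) * he
  have rR : Rel P (lam n) (iv x 1 * ∑ k ∈ range (2 * v + 1), tm x n 0 k) := by
    have h4 : n = 4 * v + 1 := by omega
    have : lam n = (1 - q)⁻¹ * ∑ k ∈ range (2 * v + 1), F3 q (q ^ n) k := by rw [h4, lam_eq]
    rw [this, ← add_zero (∑ k ∈ range (2 * v + 1), tm x n 0 k), ← hb, ← sum_add_distrib]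
    refine rw1.mul (Rel.sum _ fun k hk => ?_)
    have hk' := mem_range.1 hk
    have rY : Rel P (q ^ n) (1 + (x ^ n - 1)) := by simpa using rq.pow n
    have he4 : ((x ^ n - 1) ^ 2) ^ 2 = 0 := by linear_combination (x ^ n - 1) * he
    have rp : Rel P (G3 q (q ^ n) k) (∏ j ∈ range k,
        ((1 - x ^ (2 * j + 1)) * iv x (2 * j + 1 + 1)) ^ 4 *
        ((1 - (x ^ 2) ^ (2 * j + 1)) * iv (x ^ 2) (2 * j + 1 + 1)) * (1 + (x ^ n - 1) ^ 2 *
        (x ^ (2 * j + 1 + 1) * iv x (2 * j + 1 + 1) ^ 2 - x ^ (2 * j + 1) * iv x (2 * j + 1) ^ 2))) := by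
      refine Rel.prod _ fun j hj => ?_
      have hj' := mem_range.1 hj
      have i1 := Ring.mul_inverse_cancel _ (hu (2 * j + 1) (nd0 (by omega) (by omega)))
      have i2 := Ring.mul_inverse_cancel _ (hu (2 * j + 1 + 1) (nd0 (by omega) (by omega)))
      have i3 := Ring.mul_inverse_cancel _ (hu2 (2 * j + 1 + 1) (nd0 (by omega) (by omega)))
      rw [← iv] at i1 i2 i3
      rw [show (x ^ 2) ^ (2 * j + 1 + 1) = x ^ (4 * j + 4) by ring] at i3
      rw [div_eq_mul_inv, show (x ^ 2) ^ (2 * j + 1) = x ^ (4 * j + 2) by ring]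
      have n1 := (((rY.sub (rq.pow (2 * j + 1))).mul (Rel.one.sub (rY.mul (rq.pow (2 * j + 1))))).mul
        ((Rel.one.sub (rq.pow (2 * j + 1))).pow 2)).mul (Rel.one.sub (rq.pow (4 * j + 2)))
      have n2 := (((rY.sub (rq.pow (2 * j + 2))).mul (Rel.one.sub (rY.mul (rq.pow (2 * j + 2))))).mul
        ((Rel.one.sub (rq.pow (2 * j + 2))).pow 2)).mul (Rel.one.sub (rq.pow (4 * j + 4)))
      rw [fac he i1] at n1
      rw [fac he i2] at n2
      generalize x ^ n - 1 = e at he n1 n2 he4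
      generalize iv x (2 * j + 1 + 1) = i at i2 n2
      generalize iv (x ^ 2) (2 * j + 1 + 1) = i' at i3
      generalize x ^ (2 * j + 1 + 1) = z at i2 n2
      convert n1.mul (n2.inv (b := (1 - e + e ^ 2) * i ^ 4 * i' * (1 + e ^ 2 * (z * i ^ 2))) ?_) using 1
      · generalize x ^ (2 * j + 1) * iv x (2 * j + 1) ^ 2 = t
        linear_combination (1 - x ^ (2 * j + 1)) ^ 4 * i ^ 4 * (1 - x ^ (4 * j + 2)) * i' *
          (z * i ^ 2 * t * he4 - (1 - e ^ 2 * t) * (1 + e ^ 2 * (z * i ^ 2)) * he)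
      · calc _ = ((1 - z) * i) ^ 4 * ((1 - x ^ (4 * j + 4)) * i') * (1 + e ^ 3) *
              (1 - (e ^ 2) ^ 2 * (z * i ^ 2) ^ 2) := by ring
          _ = 1 := by rw [i2, i3, he, he4]; ring
    rw [F3]
    convert ((rq.neg.pow k).mul (Rel.one.sub (rq.pow (4 * k + 1)))).mul rp using 1
    rw [prod_mul_distrib, prod_mul_distrib, prod_one_add he4, prod_pow, ← th,
      ← U_prod hv k (by omega), ← U_prod hv k (by omega), tm]
    simp only [mul_zero, zero_add]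
    ring
  convert (Rel.sum (range m) fun r _ => blk r).sub (rR.mul (Rel.rat _)) using 1
  rw [← sum_mul, ← map_sum]; ring

end Pool.Agent.Results.MP_40e425_nt.Yes
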